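import Pool.Agent.Lib.MP_7587db.Final

set_option autoImplicit false

namespace Pool.Agent.Results.MP_7587db_pr.Attractive

/-- For every `c > 0`, almost surely the free energies of the graphs `G(n, c/n)` converge for all
targets `H` with `k` states, site weights `α` and symmetric positive edge weights `A` which are
log-supermodular for some distributive lattice structure on the set of states. -/
theorem result :
  ∀ c : ℝ, 0 < c →
  ∀ (Ω : Type) [MeasurableSpace Ω] (μ : MeasureTheory.Measure Ω) [MeasureTheory.IsProbabilityMeasure μ]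
    (X : (Σ n : ℕ, Fin n × Fin n) → Ω → Bool),
    (∀ i, Measurable (X i)) →
    ProbabilityTheory.iIndepFun X μ →
    (∀ i, μ {ω | X i ω = true} = ENNReal.ofReal (min 1 (c / (i.1 : ℝ)))) →
    ∀ᵐ ω ∂μ, ∀ (k : ℕ) (α : Fin k → ℝ) (A : Matrix (Fin k) (Fin k) ℝ),
      (∀ i, 0 < α i) → A.IsSymm → (∀ i j, 0 < A i j) →
      (∃ (S : Type) (_ : DistribLattice S) (e : Fin k ≃ S),
        (∀ i j, α i * α j ≤ α (e.symm (e i ⊓ e j)) * α (e.symm (e i ⊔ e j))) ∧
        ∀ i j i' j', A i j * A i' j' ≤
          A (e.symm (e i ⊓ e i')) (e.symm (e j ⊓ e j')) *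
          A (e.symm (e i ⊔ e i')) (e.symm (e j ⊔ e j'))) →
      ∃ L : ℝ, Filter.Tendsto
        (fun n : ℕ => -(1 / (n : ℝ)) * Real.log
          (∑ σ : Fin n → Fin k, (∏ u, α (σ u)) *
            ∏ p ∈ Finset.univ.filter (fun p : Fin n × Fin n => p.1 < p.2 ∧ X ⟨n, p⟩ ω = true),
              A (σ p.1) (σ p.2)))
        Filter.atTop (nhds L) :=
  Pool.Agent.Lib.MP_7587db.final_lattice

end Pool.Agent.Results.MP_7587db_pr.Attractive
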