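import Pool.Agent.Lib.R97Q2.Final97

set_option autoImplicit false

namespace Pool.Agent.Results.MP_7587db_pr.RegularAttractive

/-- For every degree `Δ`, if for every `n` with `n Δ` even the graph `G n` is uniform among all
`Δ`-regular graphs on `n` vertices (for different `n` any joint law is allowed), then almost surely
the free energies along the admissible sizes converge for all targets with `k` states, site weights
`α` and symmetric positive edge weights `A` such that the matrix `α i * α j * A i j ^ Δ` is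
log-supermodular for some distributive lattice structure on the set of states. -/
theorem result :
  ∀ (Δ : ℕ) (Ω : Type) [MeasurableSpace Ω] (μ : MeasureTheory.Measure Ω)
    [MeasureTheory.IsProbabilityMeasure μ] (G : ∀ n : ℕ, Ω → SimpleGraph (Fin n)),
    (∀ (n : ℕ) (g : SimpleGraph (Fin n)), MeasurableSet {ω | G n ω = g}) →
    (∀ n : ℕ, Even (n * Δ) → ∀ g : SimpleGraph (Fin n), (∀ v, (g.neighborSet v).ncard = Δ) →
      μ {ω | G n ω = g} =
        (({g' : SimpleGraph (Fin n) | ∀ v, (g'.neighborSet v).ncard = Δ}.ncard : ℕ) :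
          ENNReal)⁻¹) →
    ∀ᵐ ω ∂μ, ∀ (k : ℕ) (α : Fin k → ℝ) (A : Matrix (Fin k) (Fin k) ℝ),
      (∀ i, 0 < α i) → A.IsSymm → (∀ i j, 0 < A i j) →
      (∃ (S : Type) (_ : DistribLattice S) (e : Fin k ≃ S), ∀ i j i' j',
        (α i * α j * A i j ^ Δ) * (α i' * α j' * A i' j' ^ Δ) ≤
          (α (e.symm (e i ⊓ e i')) * α (e.symm (e j ⊓ e j')) *
            A (e.symm (e i ⊓ e i')) (e.symm (e j ⊓ e j')) ^ Δ) *
          (α (e.symm (e i ⊔ e i')) * α (e.symm (e j ⊔ e j')) *
            A (e.symm (e i ⊔ e i')) (e.symm (e j ⊔ e j')) ^ Δ)) →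
      ∃ L : ℝ, Filter.Tendsto
        (fun n : ℕ => -(1 / (n : ℝ)) * Real.log
          (∑ σ : Fin n → Fin k, (∏ u, α (σ u)) *
            ∏ p ∈ (Set.toFinite {p : Fin n × Fin n | p.1 < p.2 ∧ (G n ω).Adj p.1 p.2}).toFinset,
              A (σ p.1) (σ p.2)))
        (Filter.atTop ⊓ Filter.principal {n : ℕ | Even (n * Δ)}) (nhds L) :=
  Pool.Agent.Lib.R97Q2.final_regular

end Pool.Agent.Results.MP_7587db_pr.RegularAttractive
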